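import Pool.Agent.BEF.Stmts

/-!
# Squad BEF, row BAZ: the approximation of degree 1
-/

set_option autoImplicit false

namespace Pool.Agent.BEF.H15

open Set Filter Topology MeasureTheory
open scoped InnerProductSpace
open Pool.Agent.BE01

theorem df0 {κ M : Type} [Fintype κ] [NormedAddCommGroup M] [NormedSpace ℝ M] (ω : ℝ)
    (P : ℝ → (κ → ℝ) → M) : DF ω (0 : κ → MvPolynomial κ ℝ) P = fun ψ z => ω • dp P ψ z := by
  funext ψ z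
  have h : vf (0 : κ → MvPolynomial κ ℝ) z = 0 := by
    funext i
    simp [vf]
  rw [DF, dv, h, map_zero, add_zero]

theorem baz (h1 : GliStmt) (_h2 : GdvStmt) (h3 : DflStmt) (h4 : QpwStmt) (h5 : GpwStmt) :
    BazStmt := by
  intro X Y H _ _ _ _ _ _ A W m p a0 ω φ hφ
  obtain ⟨q1, q2, q3, q4, -, -, -⟩ := h4 H m φ 0
  have r1 : (fun ψ z => ((ω ^ 3) • W.SX) (pw φ ψ z)) ∈ HG (Fin m ⊕ Fin m) X 1 :=
    (h1 _ H X ((ω ^ 3) • W.SX) 1 (pw φ)).1 q2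
  have r2 := (h5 _ X 0 (2 * p + 1) _ 0).1 r1
  have r3 := (h1 _ X H (a0 • A.e) (2 * p + 1) _).1 r2
  have r4 : (fun ψ z => a0 • A.e (W.SX ((ω ^ 3) • pw φ ψ z) ^ (2 * p + 1))) ∈
      HG (Fin m ⊕ Fin m) H (2 * p + 1) := by
    have e : (fun ψ z => a0 • A.e (W.SX ((ω ^ 3) • pw φ ψ z) ^ (2 * p + 1))) =
        fun (ψ : ℝ) (z : Fin m ⊕ Fin m → ℝ) =>
          (a0 • A.e) (((ω ^ 3) • W.SX) (pw φ ψ z) ^ (2 * p + 1)) := by
      funext ψ z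
      rw [map_smul]
      rfl
    rw [e]
    exact r3
  refine ⟨_, r4, ⟨fun i => Submodule.zero_mem _, fun ψ z => rfl, ⟨0, Submodule.zero_mem _,
    fun ψ z => ?_⟩, ((h1 _ H H 0 (2 * p + 1) _).2.2.1) r4, ?_⟩, fun ψ z => rfl⟩
  · rw [Pi.zero_apply, Pi.zero_apply, add_zero]
  have g1 := ((h1 _ H H 0 1 (qw φ)).2.2.1) q1
  have g2 := ((h1 _ H H 0 1 (pw φ)).2.2.1) q2
  have d1 : dp (fun ψ z => W.SX ((ω ^ 2) • qw φ ψ z)) = fun ψ z => W.SX ((ω ^ 2) • pw φ ψ z) := by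
    have h := (h3 _ H X ((ω ^ 2) • W.SX) 1 1 (qw φ) (qw φ) ω 0 0 g1 g1).2.2.2.2.2.1
    rw [q3] at h
    have e1 : (fun ψ z => W.SX ((ω ^ 2) • qw φ ψ z)) = fun ψ z => ((ω ^ 2) • W.SX) (qw φ ψ z) := by
      funext ψ z
      rw [map_smul]
      rfl
    have e2 : (fun ψ z => W.SX ((ω ^ 2) • pw φ ψ z)) = fun ψ z => ((ω ^ 2) • W.SX) (pw φ ψ z) := by
      funext ψ z
      rw [map_smul]
      rfl
    rw [e1, e2]
    exact h
  have d2 : DF ω 0 (fun ψ z => W.SX ((ω ^ 2) • qw φ ψ z)) =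
      fun ψ z => W.SX ((ω ^ 3) • pw φ ψ z) := by
    rw [df0, d1]
    funext ψ z
    rw [← map_smul, smul_smul]
    ring_nf
  have d3 : dp (fun ψ z => W.SX ((ω ^ 3) • pw φ ψ z)) =
      fun ψ z => - W.SX ((ω ^ 3) • qw φ ψ z) := by
    have h := (h3 _ H X ((ω ^ 3) • W.SX) 1 1 (pw φ) (pw φ) ω 0 0 g2 g2).2.2.2.2.2.1
    rw [q4] at h
    have e1 : (fun ψ z => W.SX ((ω ^ 3) • pw φ ψ z)) = fun ψ z => ((ω ^ 3) • W.SX) (pw φ ψ z) := by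
      funext ψ z
      rw [map_smul]
      rfl
    have e2 : (fun ψ z => - W.SX ((ω ^ 3) • qw φ ψ z)) =
        fun ψ z => ((ω ^ 3) • W.SX) ((- qw φ) ψ z) := by
      funext ψ z
      rw [Pi.neg_apply, Pi.neg_apply, map_neg, map_smul]
      rfl
    rw [e1, e2]
    exact h
  have sq : ∀ ψ z, (ω ^ 2) • W.S (qw φ ψ z) = qw φ ψ z := by
    intro ψ z
    rw [qw, map_sum, Finset.smul_sum]
    refine Finset.sum_congr rfl fun i _ => ?_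
    rw [map_smul, smul_comm, hφ.2 i]
  intro ψ z
  rw [d2, df0, d3]
  have e : A.e (ω • - W.SX ((ω ^ 3) • qw φ ψ z)) = - ((ω ^ 2) • qw φ ψ z) := by
    rw [smul_neg, map_neg, map_smul, W.e_SX, map_smul, smul_smul]
    have : ω * ω ^ 3 = ω ^ 2 * ω ^ 2 := by ring
    rw [this, ← smul_smul, sq]
  show A.e (ω • - W.SX ((ω ^ 3) • qw φ ψ z)) + (ω ^ 2) • qw φ ψ z + _ = _
  rw [e, neg_add_cancel, zero_add]

end Pool.Agent.BEF.H15
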